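import Pool.Agent.W2helper80.CL.Key

/-!
# Normal cellular-Lindelöf spaces without the continuum hypothesis
-/

set_option autoImplicit false

universe u

namespace Pool.Agent.Results.MP_95b5c3_gt.BeyondCH

open Set Cardinal Topology

/-- every family of pairwise disjoint nonempty open sets is met by a Lindelöf subspace -/
abbrev CellularLindelof (X : Type u) [TopologicalSpace X] : Prop :=
  Pool.Agent.W2helper80.CL.CellularLindelof X

/-- countable tightness -/
def CountablyTight (X : Type u) [TopologicalSpace X] : Prop :=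
  ∀ (A : Set X) (x : X), x ∈ closure A → ∃ B ⊆ A, B.Countable ∧ x ∈ closure B

/-- the Lindelöf number of the subset `F` is at most `κ`: every family of open sets of `X` covering
`F` has a subfamily of cardinality at most `κ` covering `F` -/
def LindelofNumberLE (κ : Cardinal.{u}) {X : Type u} [TopologicalSpace X] (F : Set X) : Prop :=
  ∀ 𝒰 : Set (Set X), (∀ U ∈ 𝒰, IsOpen U) → F ⊆ ⋃₀ 𝒰 → ∃ 𝒱 ⊆ 𝒰, #𝒱 ≤ κ ∧ F ⊆ ⋃₀ 𝒱

/-- every open cover of `X` has a subfamily of cardinality less than `κ` with dense union; for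
`κ = ℵ₁` this says that `X` is weakly Lindelöf -/
def WeaklyLindelofBelow (κ : Cardinal.{u}) (X : Type u) [TopologicalSpace X] : Prop :=
  ∀ 𝒰 : Set (Set X), (∀ U ∈ 𝒰, IsOpen U) → ⋃₀ 𝒰 = Set.univ → ∃ 𝒱 ⊆ 𝒰, #𝒱 < κ ∧ Dense (⋃₀ 𝒱)

/-- `X` is weakly Lindelöf -/
def WeaklyLindelof (X : Type u) [TopologicalSpace X] : Prop :=
  ∀ 𝒰 : Set (Set X), (∀ U ∈ 𝒰, IsOpen U) → ⋃₀ 𝒰 = Set.univ →
    ∃ 𝒱 ⊆ 𝒰, 𝒱.Countable ∧ Dense (⋃₀ 𝒱)

lemma tight (X : Type u) [TopologicalSpace X] [FirstCountableTopology X] : CountablyTight X := by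
  intro A x hx
  obtain ⟨s, hs, hsx⟩ := mem_closure_iff_seq_limit.1 hx
  refine ⟨Set.range s, ?_, Set.countable_range s, ?_⟩
  · rintro _ ⟨n, rfl⟩
    exact hs n
  · exact mem_closure_of_tendsto hsx (Filter.Eventually.of_forall fun n => ⟨n, rfl⟩)

theorem general (X : Type u) [TopologicalSpace X] [NormalSpace X] (hX : CellularLindelof X)
    (ht : CountablyTight X) (κ : Cardinal.{u}) (hκ : κ.IsRegular) (hω : ℵ₀ < κ)
    (hL : ∀ A : Set X, #A < κ → LindelofNumberLE κ (closure A)) : WeaklyLindelofBelow κ X :=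
  fun 𝒰 hU hcov => Pool.Agent.W2helper80.CL.main hX ht κ hκ hω 𝒰 hU hcov fun A hA =>
    hL A hA 𝒰 hU (by rw [hcov]; exact subset_univ _)

/-- closures in first countable Hausdorff spaces -/
lemma mk_closure_le (X : Type u) [TopologicalSpace X] [T2Space X] [FirstCountableTopology X]
    (A : Set X) : #(closure A) ≤ #A ^ ℵ₀ := by
  have h1 : ∀ x : closure A, ∃ s : ℕ → A, Filter.Tendsto (fun n => (s n : X)) Filter.atTop (𝓝 (x : X)) := by
    intro x
    obtain ⟨s, hs, hsx⟩ := mem_closure_iff_seq_limit.1 x.2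
    exact ⟨fun n => ⟨s n, hs n⟩, hsx⟩
  choose s hs using h1
  have h2 : Function.Injective s := by
    intro x y hxy
    have h3 := hs x
    rw [hxy] at h3
    exact Subtype.ext (tendsto_nhds_unique h3 (hs y))
  calc #(closure A) ≤ #(ℕ → A) := mk_le_of_injective h2
    _ = #A ^ ℵ₀ := by simp

lemma lindelof_of_card (X : Type u) [TopologicalSpace X] (κ : Cardinal.{u}) (F : Set X)
    (hF : #F ≤ κ) : LindelofNumberLE κ F := by
  intro 𝒰 _ hcov
  have h1 : ∀ x : F, ∃ U ∈ 𝒰, (x : X) ∈ U := fun x => hcov x.2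
  choose U hU hxU using h1
  refine ⟨Set.range U, ?_, mk_range_le.trans hF, ?_⟩
  · rintro _ ⟨x, rfl⟩
    exact hU x
  · intro x hx
    exact ⟨U ⟨x, hx⟩, ⟨⟨x, hx⟩, rfl⟩, hxU ⟨x, hx⟩⟩

/-- every open cover has a point-countable open refinement -/
def MetaLindelof (X : Type u) [TopologicalSpace X] : Prop :=
  ∀ 𝒰 : Set (Set X), (∀ U ∈ 𝒰, IsOpen U) → ⋃₀ 𝒰 = Set.univ →
    ∃ 𝒲 : Set (Set X), (∀ W ∈ 𝒲, IsOpen W ∧ ∃ U ∈ 𝒰, W ⊆ U) ∧ ⋃₀ 𝒲 = Set.univ ∧
      ∀ x, {W ∈ 𝒲 | x ∈ W}.Countable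

/-- in a metaLindelöf space the closures of the countable sets are Lindelöf -/
lemma meta_closure (X : Type u) [TopologicalSpace X] (h : MetaLindelof X) (A : Set X)
    (hA : A.Countable) : LindelofNumberLE ℵ₁ (closure A) := by
  classical
  intro 𝒰 hU hcov
  obtain ⟨𝒲, hW, hWc, hpc⟩ := h (insert (closure A)ᶜ 𝒰) (by
    intro U hU'
    rcases mem_insert_iff.1 hU' with rfl | hU'
    · exact isClosed_closure.isOpen_compl
    · exact hU U hU') (by
    apply Set.eq_univ_of_forall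
    intro x
    by_cases hx : x ∈ closure A
    · obtain ⟨U, hU', hxU⟩ := hcov hx
      exact ⟨U, mem_insert_of_mem _ hU', hxU⟩
    · exact ⟨_, mem_insert _ _, hx⟩)
  -- the members of the refinement meeting `A`
  set 𝒲' : Set (Set X) := ⋃ a ∈ A, {W ∈ 𝒲 | a ∈ W} with hW'
  have hc' : 𝒲'.Countable := hA.biUnion fun a _ => hpc a
  have hsel : ∀ W : 𝒲', ∃ U ∈ 𝒰, (W : Set X) ⊆ U := by
    rintro ⟨W, hWm⟩
    obtain ⟨a, ha, hWW, haW⟩ := mem_iUnion₂.1 hWm
    obtain ⟨U, hU', hWU⟩ := (hW W hWW).2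
    rcases mem_insert_iff.1 hU' with rfl | hU'
    · exact absurd (subset_closure ha) (hWU haW)
    · exact ⟨U, hU', hWU⟩
  choose f hf hf2 using hsel
  have : Countable 𝒲' := hc'.to_subtype
  refine ⟨Set.range f, ?_, ?_, ?_⟩
  · rintro _ ⟨W, rfl⟩
    exact hf W
  · exact (le_aleph0_iff_set_countable.2 (Set.countable_range f)).trans aleph0_lt_aleph_one.le
  · intro x hx
    have hx2 : x ∈ ⋃₀ 𝒲 := by rw [hWc]; trivial
    obtain ⟨W, hWW, hxW⟩ := hx2
    obtain ⟨a, haW, haA⟩ := mem_closure_iff.1 hx W (hW W hWW).1 hxW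
    have hWm : W ∈ 𝒲' := mem_iUnion₂.2 ⟨a, haA, hWW, haW⟩
    exact ⟨f ⟨W, hWm⟩, ⟨⟨W, hWm⟩, rfl⟩, hf2 ⟨W, hWm⟩ hxW⟩

/-- **Theorem.** -/
theorem result :
    -- (1) weakly Lindelöf, if the closures of the countable sets have Lindelöf number at most `ℵ₁`
    (∀ (X : Type u) [TopologicalSpace X] [NormalSpace X], CellularLindelof X → CountablyTight X →
      (∀ A : Set X, A.Countable → LindelofNumberLE ℵ₁ (closure A)) → WeaklyLindelof X) ∧
    -- in particular, if `X` is metaLindelöf or has at most `ℵ₁` points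
    (∀ (X : Type u) [TopologicalSpace X] [NormalSpace X], CellularLindelof X → CountablyTight X →
      MetaLindelof X ∨ #X ≤ ℵ₁ → WeaklyLindelof X) ∧
    -- (2) the same for every uncountable regular cardinal
    (∀ (X : Type u) [TopologicalSpace X] [NormalSpace X], CellularLindelof X → CountablyTight X →
      ∀ κ : Cardinal.{u}, κ.IsRegular → ℵ₀ < κ →
        (∀ A : Set X, #A < κ → LindelofNumberLE κ (closure A)) → WeaklyLindelofBelow κ X) ∧
    -- (3) first countable spaces, no hypothesis on the closures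
    (∀ (X : Type u) [TopologicalSpace X] [T1Space X] [NormalSpace X] [FirstCountableTopology X],
      CellularLindelof X → CountablyTight X ∧
        (∀ κ : Cardinal.{u}, κ.IsRegular → ℵ₀ < κ → (∀ μ < κ, μ ^ ℵ₀ ≤ κ) → WeaklyLindelofBelow κ X) ∧
        ((𝔠 : Cardinal.{u}).IsRegular → WeaklyLindelofBelow 𝔠 X)) := by
  have h3 : ∀ (X : Type u) [TopologicalSpace X] [T1Space X] [NormalSpace X] [FirstCountableTopology X],
      CellularLindelof X → ∀ κ : Cardinal.{u}, κ.IsRegular → ℵ₀ < κ → (∀ μ < κ, μ ^ ℵ₀ ≤ κ) →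
        WeaklyLindelofBelow κ X := by
    intro X _ _ _ _ hX κ hκ hω hμ
    have : T4Space X := {}
    exact general X hX (tight X) κ hκ hω fun A hA =>
      lindelof_of_card X κ _ ((mk_closure_le X A).trans (hμ _ hA))
  have h1 : ∀ (X : Type u) [TopologicalSpace X] [NormalSpace X], CellularLindelof X →
      CountablyTight X → (∀ A : Set X, A.Countable → LindelofNumberLE ℵ₁ (closure A)) →
        WeaklyLindelof X := by
    intro X _ _ hX ht hL 𝒰 hU hcov
    obtain ⟨𝒱, hV, hVκ, hd⟩ := general X hX ht ℵ₁ isRegular_aleph_one aleph0_lt_aleph_one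
      (fun A hA => hL A (le_aleph0_iff_set_countable.1 (lt_aleph_one_iff.1 hA))) 𝒰 hU hcov
    exact ⟨𝒱, hV, le_aleph0_iff_set_countable.1 (lt_aleph_one_iff.1 hVκ), hd⟩
  refine ⟨h1, ?_, ?_, ?_⟩
  · rintro X _ _ hX ht (hm | hm)
    · exact h1 X hX ht (meta_closure X hm)
    · exact h1 X hX ht fun A _ => lindelof_of_card X ℵ₁ _ ((mk_set_le _).trans hm)
  · intro X _ _ hX ht κ hκ hω hL
    exact general X hX ht κ hκ hω hL
  · intro X _ _ _ _ hX
    refine ⟨tight X, h3 X hX, fun hc => h3 X hX 𝔠 hc aleph0_lt_continuum ?_⟩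
    intro μ hμ
    calc μ ^ ℵ₀ ≤ 𝔠 ^ ℵ₀ := power_le_power_right hμ.le
      _ = 𝔠 := continuum_power_aleph0

end Pool.Agent.Results.MP_95b5c3_gt.BeyondCH
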